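import Mathlib

set_option autoImplicit false

open Set Filter Topology

namespace Pool.Agent.H8.UEq

/-- the threshold level -/
noncomputable def thr {ι : Type} (P : Set ι → Prop) (w : ι → ℝ) : ℝ :=
  sInf {l : ℝ | 0 ≤ l ∧ P {i | l < |w i|}}

structure Her {ι : Type} (P : Set ι → Prop) : Prop where
  empty : P ∅
  mono : ∀ A B : Set ι, A ⊆ B → P B → P A

section
variable {ι : Type} [Fintype ι] {P : Set ι → Prop}

theorem thr_bdd (w : ι → ℝ) : BddBelow {l : ℝ | 0 ≤ l ∧ P {i | l < |w i|}} :=
  ⟨0, fun _ hl => hl.1⟩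

theorem thr_ne (hP : Her P) (w : ι → ℝ) : {l : ℝ | 0 ≤ l ∧ P {i | l < |w i|}}.Nonempty := by
  refine ⟨∑ i, |w i|, Finset.sum_nonneg fun i _ => abs_nonneg _, ?_⟩
  have : {i | ∑ i, |w i| < |w i|} = (∅ : Set ι) := by
    ext i
    simp only [Set.mem_ofPred_eq, Set.mem_empty_iff_false, iff_false, not_lt]
    exact Finset.single_le_sum (f := fun i => |w i|) (fun i _ => abs_nonneg _) (Finset.mem_univ i)
  rw [this]
  exact hP.empty

theorem thr_nonneg (hP : Her P) (w : ι → ℝ) : 0 ≤ thr P w :=
  le_csInf (thr_ne hP w) fun _ hl => hl.1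

theorem thr_le {w : ι → ℝ} {l : ℝ} (h0 : 0 ≤ l) (h : P {i | l < |w i|}) : thr P w ≤ l :=
  csInf_le (thr_bdd w) ⟨h0, h⟩

theorem thr_mem (hP : Her P) (w : ι → ℝ) : P {i | thr P w < |w i|} := by
  classical
  by_cases hE : ({i | thr P w < |w i|} : Set ι) = ∅
  · rw [hE]
    exact hP.empty
  · have hne : ((Finset.univ.filter fun i => thr P w < |w i|) : Finset ι).Nonempty := by
      obtain ⟨i, hi⟩ := Set.nonempty_iff_ne_empty.2 hE
      exact ⟨i, by simpa using hi⟩
    obtain ⟨i₀, hi₀, hmin⟩ := Finset.exists_min_image _ (fun i => |w i|) hne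
    have hi₀' : thr P w < |w i₀| := by simpa using hi₀
    obtain ⟨l, hl, hlt⟩ := exists_lt_of_csInf_lt (thr_ne hP w) hi₀'
    refine hP.mono _ _ ?_ hl.2
    intro i hi
    have : |w i₀| ≤ |w i| := hmin i (by simpa using hi)
    exact lt_of_lt_of_le hlt this

theorem thr_lip (hP : Her P) {w w' : ι → ℝ} {δ : ℝ} (hδ : 0 ≤ δ) (h : ∀ i, |w i - w' i| ≤ δ) :
    thr P w' ≤ thr P w + δ := by
  apply thr_le (add_nonneg (thr_nonneg hP w) hδ)
  refine hP.mono _ _ ?_ (thr_mem hP w)
  intro i hi
  simp only [Set.mem_ofPred_eq] at hi ⊢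
  have h1 := h i
  have h2 : |w' i| ≤ |w i| + |w i - w' i| := by
    have : w' i = w i - (w i - w' i) := by ring
    calc |w' i| = |w i - (w i - w' i)| := by rw [← this]
      _ ≤ |w i| + |w i - w' i| := abs_sub _ _
  linarith

end

/-- soft thresholding -/
noncomputable def soft (x l : ℝ) : ℝ := x - max (-l) (min x l)

theorem soft_sub (x l : ℝ) (hl : 0 ≤ l) : |soft x l - x| ≤ l := by
  unfold soft
  rw [show x - max (-l) (min x l) - x = -(max (-l) (min x l)) by ring, abs_neg, abs_le]
  exact ⟨le_max_left _ _, max_le (by linarith) (min_le_right _ _)⟩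

theorem soft_ne {x l : ℝ} (hl : 0 ≤ l) (h : soft x l ≠ 0) : l < |x| := by
  by_contra hcon
  push Not at hcon
  apply h
  unfold soft
  rw [abs_le] at hcon
  rw [min_eq_left hcon.2, max_eq_right hcon.1, sub_self]

theorem soft_zero_right (x : ℝ) : soft x 0 = x := by
  unfold soft
  rcases le_total x 0 with h | h
  · rw [min_eq_left h]; simp [h]
  · rw [min_eq_right h]; simp

theorem soft_lip (x x' l l' : ℝ) : |soft x l - soft x' l'| ≤ 2 * |x - x'| + |l - l'| := by
  unfold soft
  have h1 : |max (-l) (min x l) - max (-l') (min x' l')| ≤ max |(-l) - (-l')| |min x l - min x' l'| :=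
    abs_max_sub_max_le_max _ _ _ _
  have h2 : |min x l - min x' l'| ≤ max |x - x'| |l - l'| := abs_min_sub_min_le_max _ _ _ _
  have h3 : |(-l) - (-l')| = |l - l'| := by
    rw [show (-l) - (-l') = -(l - l') by ring, abs_neg]
  have h4 : |max (-l) (min x l) - max (-l') (min x' l')| ≤ |x - x'| + |l - l'| := by
    refine h1.trans (max_le ?_ (h2.trans (max_le ?_ ?_)))
    · rw [h3]; linarith [abs_nonneg (x - x')]
    · linarith [abs_nonneg (l - l')]
    · linarith [abs_nonneg (x - x')]
  calc |x - max (-l) (min x l) - (x' - max (-l') (min x' l'))|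
      = |(x - x') - (max (-l) (min x l) - max (-l') (min x' l'))| := by congr 1; ring
    _ ≤ |x - x'| + |max (-l) (min x l) - max (-l') (min x' l')| := abs_sub _ _
    _ ≤ 2 * |x - x'| + |l - l'| := by linarith

/-- the retraction onto vectors with support in P -/
noncomputable def ret {ι : Type} (P : Set ι → Prop) (w : ι → ℝ) : ι → ℝ :=
  fun i => soft (w i) (thr P w)

section
variable {ι : Type} [Fintype ι] {P : Set ι → Prop}

theorem ret_sub (hP : Her P) (w : ι → ℝ) (i : ι) : |ret P w i - w i| ≤ thr P w :=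
  soft_sub _ _ (thr_nonneg hP w)

theorem ret_supp (hP : Her P) (w : ι → ℝ) : P {i | ret P w i ≠ 0} :=
  hP.mono _ _ (fun _ hi => soft_ne (thr_nonneg hP w) hi) (thr_mem hP w)

theorem ret_uc (hP : Her P) : UniformContinuous (ret P) := by
  have hL : LipschitzWith 3 (ret P) := by
    apply LipschitzWith.of_dist_le_mul
    intro w w'
    rw [dist_pi_le_iff (by positivity)]
    intro i
    rw [Real.dist_eq]
    refine (soft_lip _ _ _ _).trans ?_
    have hd : ∀ i, |w i - w' i| ≤ dist w w' := fun i => by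
      rw [← Real.dist_eq]; exact dist_le_pi_dist w w' i
    have h1 := hd i
    have h2 := thr_lip hP (w := w) (w' := w') dist_nonneg hd
    have h3 := thr_lip hP (w := w') (w' := w) dist_nonneg (fun i => by
      rw [abs_sub_comm]; exact hd i)
    have h4 : |thr P w - thr P w'| ≤ dist w w' := by
      rw [abs_le]; constructor <;> linarith
    have : ((3 : NNReal) : ℝ) = 3 := rfl
    rw [this]
    linarith
  exact hL.uniformContinuous

end

end Pool.Agent.H8.UEq
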