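import Mathlib
import Pool.Agent.H8.UEq.Thr

set_option autoImplicit false

open Set Filter Topology

namespace Pool.Agent.H8.UEq

/-- restrict a uniform equivalence to subtypes -/
def subEquiv {α β : Type} [UniformSpace α] [UniformSpace β] (e : α ≃ᵤ β) {p : α → Prop}
    {q : β → Prop} (h : ∀ a, p a ↔ q (e a)) : {a // p a} ≃ᵤ {b // q b} where
  toEquiv := e.toEquiv.subtypeEquiv h
  uniformContinuous_toFun :=
    (e.uniformContinuous.comp uniformContinuous_subtype_val).subtype_mk _
  uniformContinuous_invFun :=
    (e.symm.uniformContinuous.comp uniformContinuous_subtype_val).subtype_mk _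

/-- product of subtypes -/
def prodSub {α β : Type} [UniformSpace α] [UniformSpace β] (p : α → Prop) (q : β → Prop) :
    ({a // p a} × {b // q b}) ≃ᵤ {ab : α × β // p ab.1 ∧ q ab.2} where
  toFun x := ⟨(x.1.1, x.2.1), x.1.2, x.2.2⟩
  invFun x := (⟨x.1.1, x.2.1⟩, ⟨x.1.2, x.2.2⟩)
  left_inv _ := rfl
  right_inv _ := rfl
  uniformContinuous_toFun :=
    ((uniformContinuous_subtype_val.comp uniformContinuous_fst).prodMk
      (uniformContinuous_subtype_val.comp uniformContinuous_snd)).subtype_mk _
  uniformContinuous_invFun :=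
    ((uniformContinuous_fst.comp uniformContinuous_subtype_val).subtype_mk _).prodMk
      ((uniformContinuous_snd.comp uniformContinuous_subtype_val).subtype_mk _)

abbrev Blk := (k : ℕ) → Fin (k + 1) → ℝ
abbrev Lvl := (k : ℕ) → ℕ → Fin (k + 1) → ℝ

def PP (j k : ℕ) : Set (Fin (k + 1)) → Prop := fun A => (j + 1) * A.ncard ≤ k

theorem her (j k : ℕ) : Her (PP j k) where
  empty := by simp [PP]
  mono A B h hB := by
    unfold PP at *
    have := Set.ncard_le_ncard h (Set.toFinite B)
    exact (Nat.mul_le_mul_left _ this).trans hB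

theorem PP_succ {j k : ℕ} {A : Set (Fin (k + 1))} (h : PP (j + 1) k A) : PP j k A := by
  unfold PP at *
  exact (Nat.mul_le_mul_right _ (by omega)).trans h

theorem PP_zero {j k : ℕ} (hjk : k ≤ j) {A : Set (Fin (k + 1))} (h : PP j k A) : A = ∅ := by
  unfold PP at h
  by_contra hne
  have : 0 < A.ncard := (Set.ncard_pos (Set.toFinite A)).2 (Set.nonempty_iff_ne_empty.2 hne)
  nlinarith

def CDp (w : Blk) : Prop := ∀ ε : ℝ, 0 < ε → ∀ j, ∀ᶠ k in atTop, PP j k {i | ε ≤ |w k i|}
def Mp (x : Lvl) : Prop := ∀ j, ∀ ε : ℝ, 0 < ε → ∀ᶠ k in atTop, ∀ i, |x k j i| ≤ ε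
def Vp (v : Lvl) : Prop := CDp (fun k i => v k 0 i) ∧ Mp (fun k j i => v k (j + 1) i - v k j i)

/-- first parametrization -/
def eA : Lvl ≃ᵤ Blk × Lvl where
  toFun v := (fun k i => v k 0 i, fun k j i => v k (j + 1) i - v k j i)
  invFun p := fun k j i => p.1 k i + ∑ m ∈ Finset.range j, p.2 k m i
  left_inv v := by
    funext k j i
    simp only
    rw [Finset.sum_range_sub (fun m => v k m i)]
    ring
  right_inv p := by
    refine Prod.ext ?_ ?_
    · funext k i
      simp
    · funext k j i
      simp only
      rw [Finset.sum_range_succ]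
      ring
  uniformContinuous_toFun := by
    apply UniformContinuous.prodMk
    · refine uniformContinuous_pi.2 fun k => uniformContinuous_pi.2 fun i => ?_
      exact (Pi.uniformContinuous_proj _ i).comp ((Pi.uniformContinuous_proj _ 0).comp
        (Pi.uniformContinuous_proj _ k))
    · refine uniformContinuous_pi.2 fun k => uniformContinuous_pi.2 fun j =>
        uniformContinuous_pi.2 fun i => ?_
      exact ((Pi.uniformContinuous_proj _ i).comp ((Pi.uniformContinuous_proj _ (j + 1)).comp
        (Pi.uniformContinuous_proj _ k))).sub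
        ((Pi.uniformContinuous_proj _ i).comp ((Pi.uniformContinuous_proj _ j).comp
        (Pi.uniformContinuous_proj _ k)))
  uniformContinuous_invFun := by
    refine uniformContinuous_pi.2 fun k => uniformContinuous_pi.2 fun j =>
        uniformContinuous_pi.2 fun i => ?_
    have h1 : UniformContinuous fun p : Blk × Lvl => p.1 k i :=
      (Pi.uniformContinuous_proj _ i).comp ((Pi.uniformContinuous_proj _ k).comp
        uniformContinuous_fst)
    have h2 : ∀ m, UniformContinuous fun p : Blk × Lvl => p.2 k m i := fun m =>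
      (Pi.uniformContinuous_proj _ i).comp ((Pi.uniformContinuous_proj _ m).comp
        ((Pi.uniformContinuous_proj _ k).comp uniformContinuous_snd))
    have h3 : ∀ n, UniformContinuous fun p : Blk × Lvl => ∑ m ∈ Finset.range n, p.2 k m i := by
      intro n
      induction n with
      | zero => simpa using uniformContinuous_const
      | succ n ih =>
        simp only [Finset.sum_range_succ]
        exact ih.add (h2 n)
    exact h1.add (h3 j)

noncomputable def R (k j : ℕ) : (Fin (k + 1) → ℝ) → (Fin (k + 1) → ℝ) := ret (PP j k)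

theorem R_zero {k j : ℕ} (h : k ≤ j) (w : Fin (k + 1) → ℝ) : R k j w = 0 := by
  have := PP_zero h (ret_supp (her j k) w)
  funext i
  by_contra hi
  have hi' : i ∈ ({i | ret (PP j k) w i ≠ 0} : Set _) := hi
  rw [this] at hi'
  exact hi'

theorem R_uc (k j : ℕ) : UniformContinuous (R k j) := ret_uc (her j k)

noncomputable def iter (k : ℕ) (u : ℕ → Fin (k + 1) → ℝ) : ℕ → ℕ → (Fin (k + 1) → ℝ)
  | 0, j => u j
  | n + 1, j => u j + R k (j + 1) (iter k u n (j + 1))

theorem iter_stable (k : ℕ) (u : ℕ → Fin (k + 1) → ℝ) : ∀ n j, k ≤ n + j →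
    iter k u n j = iter k u (n + 1) j
  | 0, j, h => by
    rw [iter, iter, R_zero (by omega)]
    simp
  | n + 1, j, h => by
    rw [iter, iter, iter_stable k u n (j + 1) (by omega)]

theorem iter_left (k : ℕ) (v : ℕ → Fin (k + 1) → ℝ) : ∀ n j, k ≤ n + j →
    iter k (fun j => v j - R k (j + 1) (v (j + 1))) n j = v j
  | 0, j, h => by
    rw [iter, R_zero (by omega)]
    simp
  | n + 1, j, h => by
    rw [iter, iter_left k v n (j + 1) (by omega)]
    simp

theorem iter_uc (k : ℕ) : ∀ n j, UniformContinuous (fun u : ℕ → Fin (k + 1) → ℝ => iter k u n j)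
  | 0, j => Pi.uniformContinuous_proj _ j
  | n + 1, j => (Pi.uniformContinuous_proj _ j).add ((R_uc k (j + 1)).comp (iter_uc k n (j + 1)))

/-- one block -/
noncomputable def eBk (k : ℕ) : (ℕ → Fin (k + 1) → ℝ) ≃ᵤ (ℕ → Fin (k + 1) → ℝ) where
  toFun v := fun j => v j - R k (j + 1) (v (j + 1))
  invFun u := fun j => iter k u (k + 1) j
  left_inv v := by
    funext j
    exact iter_left k v (k + 1) j (by omega)
  right_inv u := by
    funext j
    simp only
    rw [← iter_stable k u k (j + 1) (by omega)]
    rw [iter]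
    simp
  uniformContinuous_toFun := uniformContinuous_pi.2 fun j =>
    (Pi.uniformContinuous_proj _ j).sub ((R_uc k (j + 1)).comp (Pi.uniformContinuous_proj _ (j + 1)))
  uniformContinuous_invFun := uniformContinuous_pi.2 fun j => iter_uc k (k + 1) j

noncomputable def eB : Lvl ≃ᵤ Lvl := UniformEquiv.piCongrRight eBk

theorem eB_apply (v : Lvl) (k j : ℕ) (i : Fin (k + 1)) :
    eB v k j i = v k j i - R k (j + 1) (v k (j + 1)) i := rfl

theorem diff_sum {v : Lvl} (h : Mp (fun k j i => v k (j + 1) i - v k j i)) (j : ℕ) :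
    ∀ ε : ℝ, 0 < ε → ∀ᶠ k in atTop, ∀ i, |v k j i - v k 0 i| ≤ ε := by
  induction j with
  | zero =>
    intro ε hε
    filter_upwards with k i
    simp [hε.le]
  | succ j ih =>
    intro ε hε
    filter_upwards [ih (ε / 2) (by positivity), h j (ε / 2) (by positivity)] with k h1 h2 i
    have e : v k (j + 1) i - v k 0 i = (v k (j + 1) i - v k j i) + (v k j i - v k 0 i) := by ring
    rw [e]
    refine (abs_add_le _ _).trans ?_
    linarith [h1 i, h2 i]

theorem V_iff (v : Lvl) : Vp v ↔ Mp (eB v) := by
  constructor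
  · rintro ⟨h0, hd⟩ j ε hε
    filter_upwards [h0 (ε / 8) (by positivity) (j + 1), diff_sum hd (j + 1) (ε / 8) (by positivity),
      hd j (ε / 4) (by positivity)] with k h1 h2 h3 i
    have ht : thr (PP (j + 1) k) (v k (j + 1)) ≤ ε / 4 := by
      apply thr_le (by positivity)
      refine (her (j + 1) k).mono _ _ ?_ h1
      intro i hi
      simp only [Set.mem_ofPred_eq] at hi ⊢
      have a := h2 i
      have b : |v k (j + 1) i| ≤ |v k (j + 1) i - v k 0 i| + |v k 0 i| := by
        have : v k (j + 1) i = (v k (j + 1) i - v k 0 i) + v k 0 i := by ring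
        calc |v k (j + 1) i| = |(v k (j + 1) i - v k 0 i) + v k 0 i| := by rw [← this]
          _ ≤ _ := abs_add_le _ _
      linarith
    rw [eB_apply]
    have a := ret_sub (her (j + 1) k) (v k (j + 1)) i
    have b := h3 i
    have e : v k j i - R k (j + 1) (v k (j + 1)) i
        = -(v k (j + 1) i - v k j i) - (ret (PP (j + 1) k) (v k (j + 1)) i - v k (j + 1) i) := by
      unfold R; ring
    rw [e]
    refine (abs_sub _ _).trans ?_
    rw [abs_neg]
    linarith
  · intro hu
    have hthr : ∀ j, ∀ ε : ℝ, 0 < ε → ∀ᶠ k in atTop, thr (PP j k) (v k j) ≤ ε := by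
      intro j ε hε
      filter_upwards [hu j ε hε] with k h1
      apply thr_le hε.le
      apply PP_succ
      refine (her (j + 1) k).mono _ _ ?_ (ret_supp (her (j + 1) k) (v k (j + 1)))
      intro i hi hz
      have h2 := h1 i
      rw [eB_apply] at h2
      have : R k (j + 1) (v k (j + 1)) i = 0 := hz
      rw [this, sub_zero] at h2
      exact absurd hi (not_lt.2 h2)
    have hd : Mp (fun k j i => v k (j + 1) i - v k j i) := by
      intro j ε hε
      filter_upwards [hthr (j + 1) (ε / 2) (by positivity), hu j (ε / 2) (by positivity)]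
        with k h1 h2 i
      have a := ret_sub (her (j + 1) k) (v k (j + 1)) i
      have b := h2 i
      rw [eB_apply] at b
      have e : v k (j + 1) i - v k j i
          = -(v k j i - R k (j + 1) (v k (j + 1)) i)
            - (ret (PP (j + 1) k) (v k (j + 1)) i - v k (j + 1) i) := by
        unfold R; ring
      rw [e]
      refine (abs_sub _ _).trans ?_
      rw [abs_neg]
      linarith
    refine ⟨?_, hd⟩
    intro ε hε j
    filter_upwards [diff_sum hd j (ε / 4) (by positivity), hu j (ε / 4) (by positivity)]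
      with k h1 h2
    apply PP_succ
    refine (her (j + 1) k).mono _ _ ?_ (ret_supp (her (j + 1) k) (v k (j + 1)))
    intro i hi hz
    have a := h1 i
    have b := h2 i
    rw [eB_apply] at b
    have : R k (j + 1) (v k (j + 1)) i = 0 := hz
    rw [this, sub_zero] at b
    have hi' : ε ≤ |v k 0 i| := hi
    have c : |v k 0 i| ≤ |v k j i - v k 0 i| + |v k j i| := by
      have e : v k 0 i = v k j i - (v k j i - v k 0 i) := by ring
      calc |v k 0 i| = |v k j i - (v k j i - v k 0 i)| := by rw [← e]
        _ ≤ |v k j i| + |v k j i - v k 0 i| := abs_sub _ _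
        _ = _ := add_comm _ _
    linarith

/-- the core equivalence -/
noncomputable def core : ({w : Blk // CDp w} × {x : Lvl // Mp x}) ≃ᵤ {u : Lvl // Mp u} :=
  (prodSub CDp Mp).trans
    ((subEquiv (p := Vp) (q := fun ab : Blk × Lvl => CDp ab.1 ∧ Mp ab.2) eA
      (fun _ => Iff.rfl)).symm.trans (subEquiv (p := Vp) (q := Mp) eB V_iff))

end Pool.Agent.H8.UEq
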