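import Mathlib
import Pool.Agent.H8.UEq.Core

set_option autoImplicit false

open Set Filter Topology

namespace Pool.Agent.H8.UEq

noncomputable def psi (j n : ℕ) (t : ℝ) : ℝ :=
  max 0 (1 - |t - (j + 4 * (1 / 2 : ℝ) ^ (n + 3))| * 2 ^ (n + 3))

theorem psi_cont (j n : ℕ) : Continuous (psi j n) := by
  unfold psi
  fun_prop

theorem psi_nonneg (j n : ℕ) (t : ℝ) : 0 ≤ psi j n t := le_max_left _ _

theorem psi_le (j n : ℕ) (t : ℝ) : psi j n t ≤ 1 := by
  unfold psi
  apply max_le zero_le_one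
  have : 0 ≤ |t - (j + 4 * (1 / 2 : ℝ) ^ (n + 3))| * 2 ^ (n + 3) := by positivity
  linarith

theorem psi_pt (j n : ℕ) : psi j n (j + 4 * (1 / 2 : ℝ) ^ (n + 3)) = 1 := by
  unfold psi
  simp

theorem psi_ne {j n : ℕ} {t : ℝ} (h : psi j n t ≠ 0) :
    (j : ℝ) + 3 * (1 / 2 : ℝ) ^ (n + 3) < t ∧ t < (j : ℝ) + 5 * (1 / 2 : ℝ) ^ (n + 3) := by
  unfold psi at h
  have h1 : 0 < 1 - |t - (j + 4 * (1 / 2 : ℝ) ^ (n + 3))| * 2 ^ (n + 3) := by
    by_contra hcon
    push Not at hcon
    exact h (max_eq_left hcon)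
  have h2 : |t - (j + 4 * (1 / 2 : ℝ) ^ (n + 3))| < (1 / 2 : ℝ) ^ (n + 3) := by
    have e : (1 / 2 : ℝ) ^ (n + 3) = 1 / 2 ^ (n + 3) := by rw [one_div_pow]
    rw [e, lt_div_iff₀ (by positivity), ← e]
    linarith
  rw [abs_lt] at h2
  constructor <;> linarith [h2.1, h2.2]

theorem half_pow_le (n : ℕ) : (1 / 2 : ℝ) ^ (n + 3) ≤ 1 / 8 := by
  rw [pow_add]
  have : (1 / 2 : ℝ) ^ n ≤ 1 := pow_le_one₀ (by norm_num) (by norm_num)
  nlinarith

theorem psi_j {j n : ℕ} {t : ℝ} (h : psi j n t ≠ 0) : (j : ℝ) < t ∧ t < (j : ℝ) + 1 := by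
  have h1 := psi_ne h
  have h2 := half_pow_le n
  have h3 : 0 < (1 / 2 : ℝ) ^ (n + 3) := by positivity
  constructor <;> linarith [h1.1, h1.2]

theorem psi_uniq_n {j n n' : ℕ} {t : ℝ} (h : psi j n t ≠ 0) (h' : psi j n' t ≠ 0) : n ≤ n' := by
  by_contra hcon
  push Not at hcon
  have h1 := psi_ne h
  have h2 := psi_ne h'
  have h3 : (1 / 2 : ℝ) ^ (n + 3) ≤ (1 / 2 : ℝ) ^ (n' + 1 + 3) :=
    pow_le_pow_of_le_one (by norm_num) (by norm_num) (by omega)
  have h4 : (1 / 2 : ℝ) ^ (n' + 1 + 3) = (1 / 2 : ℝ) ^ (n' + 3) / 2 := by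
    rw [show n' + 1 + 3 = (n' + 3) + 1 by ring, pow_succ]; ring
  have h5 : 0 < (1 / 2 : ℝ) ^ (n' + 3) := by positivity
  linarith [h1.1, h1.2, h2.1, h2.2]

theorem psi_uniq {j n j' n' : ℕ} {t : ℝ} (h : psi j n t ≠ 0) (h' : psi j' n' t ≠ 0) :
    j = j' ∧ n = n' := by
  have hj : j = j' := by
    have h1 := psi_j h
    have h2 := psi_j h'
    have a : (j : ℝ) < j' + 1 := by linarith [h1.1, h2.2]
    have b : (j' : ℝ) < j + 1 := by linarith [h1.2, h2.1]
    have a' : j < j' + 1 := by exact_mod_cast a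
    have b' : j' < j + 1 := by exact_mod_cast b
    omega
  subst hj
  exact ⟨rfl, le_antisymm (psi_uniq_n h h') (psi_uniq_n h' h)⟩

theorem psi_nat {j n m : ℕ} : psi j n (m : ℝ) = 0 := by
  by_contra h
  have h1 := psi_j h
  have a : j < m := by exact_mod_cast h1.1
  have b : m < j + 1 := by exact_mod_cast h1.2
  omega

abbrev QQ := (Σ k : ℕ, Fin (k + 1)) × ℕ

def nn (s : Σ k : ℕ, Fin (k + 1)) : ℕ := Nat.pair s.1 s.2.val

theorem nn_inj {s s' : Σ k : ℕ, Fin (k + 1)} (h : nn s = nn s') : s = s' := by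
  obtain ⟨k, i⟩ := s
  obtain ⟨k', i'⟩ := s'
  unfold nn at h
  have h1 := Nat.pair_eq_pair.1 h
  simp only at h1
  obtain ⟨h2, h3⟩ := h1
  subst h2
  have : i = i' := Fin.ext h3
  subst this
  rfl

noncomputable def phi (q : QQ) (t : ℝ) : ℝ := psi q.2 (nn q.1) t

noncomputable def pt (k j : ℕ) (i : Fin (k + 1)) : ℝ :=
  j + 4 * (1 / 2 : ℝ) ^ (nn ⟨k, i⟩ + 3)

theorem phi_uniq {q q' : QQ} {t : ℝ} (h : phi q t ≠ 0) (h' : phi q' t ≠ 0) : q = q' := by
  have := psi_uniq h h'
  exact Prod.ext (nn_inj this.2) this.1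

def val (x : Lvl) (q : QQ) : ℝ := x q.1.1 q.2 q.1.2

/-- the linear extension operator -/
noncomputable def Ext (x : Lvl) (t : ℝ) : ℝ := ∑ᶠ q : QQ, val x q * phi q t

theorem Ext_eq_of {t : ℝ} {q : QQ} (h : ∀ q', q' ≠ q → phi q' t = 0) (x : Lvl) :
    Ext x t = val x q * phi q t := by
  unfold Ext
  exact finsum_eq_single _ q fun q' hq' => by rw [h q' hq', mul_zero]

theorem exists_q (t : ℝ) : ∃ q : QQ, ∀ q', q' ≠ q → phi q' t = 0 := by
  by_cases hex : ∃ q : QQ, phi q t ≠ 0
  · obtain ⟨q, hq⟩ := hex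
    refine ⟨q, fun q' hq' => ?_⟩
    by_contra h
    exact hq' (phi_uniq h hq)
  · push Not at hex
    exact ⟨(⟨0, 0⟩, 0), fun q' _ => hex q'⟩

theorem Ext_pt (x : Lvl) (k j : ℕ) (i : Fin (k + 1)) : Ext x (pt k j i) = x k j i := by
  have h1 : phi (⟨k, i⟩, j) (pt k j i) = 1 := psi_pt _ _
  rw [Ext_eq_of (q := (⟨k, i⟩, j)) (fun q' hq' => by
    by_contra h
    exact hq' (phi_uniq h (by rw [h1]; exact one_ne_zero))), h1, mul_one]
  rfl

theorem Ext_nat (x : Lvl) (m : ℕ) : Ext x (m : ℝ) = 0 := by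
  unfold Ext
  have : ∀ q : QQ, val x q * phi q (m : ℝ) = 0 := fun q => by
    unfold phi; rw [psi_nat, mul_zero]
  simp only [this, finsum_zero]

theorem Ext_bound {x : Lvl} {ε : ℝ} (hε : 0 ≤ ε) (h : ∀ q, |val x q| ≤ ε) (t : ℝ) :
    |Ext x t| ≤ ε := by
  obtain ⟨q, hq⟩ := exists_q t
  rw [Ext_eq_of hq, abs_mul]
  have h1 : |phi q t| ≤ 1 := by
    unfold phi
    rw [abs_of_nonneg (psi_nonneg _ _ _)]
    exact psi_le _ _ _
  calc |val x q| * |phi q t| ≤ ε * 1 := mul_le_mul (h q) h1 (abs_nonneg _) hε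
    _ = ε := mul_one ε

theorem Ext_sub (x y : Lvl) (t : ℝ) : Ext x t - Ext y t = Ext (fun k j i => x k j i - y k j i) t := by
  obtain ⟨q, hq⟩ := exists_q t
  rw [Ext_eq_of hq, Ext_eq_of hq, Ext_eq_of hq]
  unfold val
  ring

theorem Ext_cont {x : Lvl} (hx : Mp x) : Continuous (Ext x) := by
  classical
  apply continuous_of_uniform_approx_of_continuous
  intro u hu
  obtain ⟨ε, hε, hu'⟩ := Metric.mem_uniformity_dist.1 hu
  set y : Lvl := fun k j i => if |x k j i| ≤ ε / 2 then 0 else x k j i with hy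
  refine ⟨Ext y, ?_, ?_⟩
  · unfold Ext
    apply continuous_finsum
    · intro q
      exact continuous_const.mul (psi_cont _ _)
    · intro t₀
      refine ⟨Metric.ball t₀ 1, Metric.ball_mem_nhds _ one_pos, ?_⟩
      choose K hK using fun j => eventually_atTop.1 (hx j (ε / 2) (by positivity))
      obtain ⟨J, hJ⟩ := exists_nat_gt (t₀ + 1)
      have hfin : (⋃ j ∈ Set.Iio J,
          {q : QQ | q.2 = j ∧ q.1.1 < K j}).Finite := by
        apply Set.Finite.biUnion (Set.finite_Iio J)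
        intro j _
        apply Set.Finite.subset (s := (((Finset.range (K j)).sigma
          (fun k => (Finset.univ : Finset (Fin (k + 1))))) ×ˢ ({j} : Finset ℕ) : Finset QQ))
          (Finset.finite_toSet _)
        intro q hq
        simp only [Set.mem_ofPred_eq] at hq
        simp only [Finset.coe_product, Set.mem_prod, Finset.mem_coe, Finset.mem_sigma,
          Finset.mem_range, Finset.mem_univ, and_true, Finset.mem_singleton]
        exact ⟨hq.2, hq.1⟩
      apply hfin.subset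
      rintro q ⟨t, ht1, ht2⟩
      have ht1' : val y q * phi q t ≠ 0 := ht1
      have h1 : phi q t ≠ 0 := right_ne_zero_of_mul ht1'
      have h2 : val y q ≠ 0 := left_ne_zero_of_mul ht1'
      have h3 := psi_j h1
      have h4 : q.2 < J := by
        have : (q.2 : ℝ) < J := by
          have := Metric.mem_ball.1 ht2
          rw [Real.dist_eq, abs_lt] at this
          linarith [h3.1, this.2]
        exact_mod_cast this
      simp only [Set.mem_iUnion, Set.mem_ofPred_eq]
      refine ⟨q.2, h4, rfl, ?_⟩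
      by_contra hcon
      push Not at hcon
      apply h2
      have := hK q.2 q.1.1 hcon q.1.2
      unfold val
      rw [hy]
      simp only
      rw [if_pos this]
  · intro t
    apply hu'
    rw [Real.dist_eq, Ext_sub]
    refine lt_of_le_of_lt (Ext_bound (ε := ε / 2) (by positivity) ?_ t) (by linarith)
    intro q
    unfold val
    simp only [hy]
    split_ifs with h
    · simpa using h
    · simp only [sub_self, abs_zero]
      positivity

def Fp (h : ℝ → ℝ) : Prop := Continuous h ∧ ∀ k j i, h (pt k j i) = h j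

theorem coef_M {g : ℝ → ℝ} (hg : Continuous g) :
    Mp (fun k j i => g (pt k j i) - g j) := by
  intro j ε hε
  obtain ⟨δ, hδ, hd⟩ := Metric.continuous_iff.1 hg (j : ℝ) ε hε
  have : Tendsto (fun k : ℕ => 4 * (1 / 2 : ℝ) ^ k) atTop (𝓝 (4 * 0)) :=
    (tendsto_pow_atTop_nhds_zero_of_lt_one (by norm_num) (by norm_num)).const_mul 4
  rw [mul_zero] at this
  filter_upwards [this.eventually (gt_mem_nhds hδ)] with k hk i
  have h1 : (1 / 2 : ℝ) ^ (nn ⟨k, i⟩ + 3) ≤ (1 / 2 : ℝ) ^ k := by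
    apply pow_le_pow_of_le_one (by norm_num) (by norm_num)
    have : k ≤ nn ⟨k, i⟩ := Nat.left_le_pair _ _
    omega
  have h2 := hd (pt k j i) (by
    rw [Real.dist_eq]
    unfold pt
    rw [add_sub_cancel_left, abs_of_pos (by positivity)]
    linarith)
  rw [Real.dist_eq] at h2
  exact h2.le

/-- splitting off a copy of M from C_p(R) -/
noncomputable def eR : {g : ℝ → ℝ // Continuous g} ≃ᵤ ({x : Lvl // Mp x} × {h : ℝ → ℝ // Fp h}) where
  toFun g := (⟨fun k j i => g.1 (pt k j i) - g.1 j, coef_M g.2⟩,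
    ⟨fun t => g.1 t - Ext (fun k j i => g.1 (pt k j i) - g.1 j) t,
      g.2.sub (Ext_cont (coef_M g.2)), fun k j i => by
        simp only
        rw [Ext_pt, Ext_nat]
        ring⟩)
  invFun p := ⟨fun t => p.2.1 t + Ext p.1.1 t, p.2.2.1.add (Ext_cont p.1.2)⟩
  left_inv g := by
    apply Subtype.ext
    funext t
    simp
  right_inv p := by
    have key : (fun k j i => (p.2.1 (pt k j i) + Ext p.1.1 (pt k j i)) - (p.2.1 j + Ext p.1.1 j))
        = p.1.1 := by
      funext k j i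
      rw [Ext_pt, Ext_nat, p.2.2.2 k j i]
      ring
    refine Prod.ext (Subtype.ext key) (Subtype.ext ?_)
    funext t
    simp only
    rw [key]
    ring
  uniformContinuous_toFun := by
    have hev : ∀ t : ℝ, UniformContinuous fun g : {g : ℝ → ℝ // Continuous g} => g.1 t :=
      fun t => (Pi.uniformContinuous_proj _ t).comp uniformContinuous_subtype_val
    apply UniformContinuous.prodMk
    · apply UniformContinuous.subtype_mk
      refine uniformContinuous_pi.2 fun k => uniformContinuous_pi.2 fun j =>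
        uniformContinuous_pi.2 fun i => ?_
      exact (hev _).sub (hev _)
    · apply UniformContinuous.subtype_mk
      refine uniformContinuous_pi.2 fun t => ?_
      obtain ⟨q, hq⟩ := exists_q t
      have : ∀ g : {g : ℝ → ℝ // Continuous g},
          g.1 t - Ext (fun k j i => g.1 (pt k j i) - g.1 j) t
          = g.1 t - phi q t • (g.1 (pt q.1.1 q.2 q.1.2) - g.1 (q.2 : ℝ)) := by
        intro g
        rw [Ext_eq_of hq]
        unfold val
        simp only [smul_eq_mul]
        ring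
      simp only [this]
      exact (hev t).sub ((uniformContinuous_const_smul (phi q t)).comp
        ((hev (pt q.1.1 q.2 q.1.2)).sub (hev (q.2 : ℝ))))
  uniformContinuous_invFun := by
    apply UniformContinuous.subtype_mk
    refine uniformContinuous_pi.2 fun t => ?_
    obtain ⟨q, hq⟩ := exists_q t
    have : ∀ p : ({x : Lvl // Mp x} × {h : ℝ → ℝ // Fp h}),
        p.2.1 t + Ext p.1.1 t = p.2.1 t + phi q t • (p.1.1 q.1.1 q.2 q.1.2) := by
      intro p
      rw [Ext_eq_of hq]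
      unfold val
      simp only [smul_eq_mul]
      ring
    simp only [this]
    have h1 : UniformContinuous fun p : ({x : Lvl // Mp x} × {h : ℝ → ℝ // Fp h}) => p.2.1 t :=
      (Pi.uniformContinuous_proj _ t).comp (uniformContinuous_subtype_val.comp uniformContinuous_snd)
    have h2 : UniformContinuous fun p : ({x : Lvl // Mp x} × {h : ℝ → ℝ // Fp h}) =>
        p.1.1 q.1.1 q.2 q.1.2 :=
      (Pi.uniformContinuous_proj _ q.1.2).comp ((Pi.uniformContinuous_proj _ q.2).comp
        ((Pi.uniformContinuous_proj _ q.1.1).comp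
          (uniformContinuous_subtype_val.comp uniformContinuous_fst)))
    exact h1.add ((uniformContinuous_const_smul (phi q t)).comp h2)

end Pool.Agent.H8.UEq
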