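import Mathlib
import Pool.Agent.H8.UEq.Tent

set_option autoImplicit false

open Set Filter Topology

namespace Pool.Agent.H8.UEq

theorem PP_union {j k : ℕ} {A B : Set (Fin (k + 1))} (hA : PP (2 * j + 1) k A)
    (hB : PP (2 * j + 1) k B) : PP j k (A ∪ B) := by
  unfold PP at *
  have := Set.ncard_union_le A B
  nlinarith

theorem PP_empty (j k : ℕ) : PP j k ∅ := (her j k).empty

theorem PP_mono {j k : ℕ} {A B : Set (Fin (k + 1))} (h : A ⊆ B) (hB : PP j k B) : PP j k A :=
  (her j k).mono A B h hB

/-- the real line with a sequence of finite blocks of isolated points attached at `0` -/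
inductive XX : Type
  | r : ℝ → XX
  | d : (k : ℕ) → Fin (k + 1) → XX

instance : TopologicalSpace XX where
  IsOpen U := IsOpen (XX.r ⁻¹' U) ∧
    (XX.r 0 ∈ U → ∀ j, ∀ᶠ k in atTop, PP j k {i | XX.d k i ∉ U})
  isOpen_univ := ⟨isOpen_univ, fun _ j => Eventually.of_forall fun k => by
    simpa using PP_empty j k⟩
  isOpen_inter U V hU hV := by
    refine ⟨hU.1.inter hV.1, fun h0 j => ?_⟩
    filter_upwards [hU.2 h0.1 (2 * j + 1), hV.2 h0.2 (2 * j + 1)] with k h1 h2
    refine PP_mono ?_ (PP_union h1 h2)
    intro i hi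
    by_cases h : XX.d k i ∈ U
    · exact Or.inr fun h' => hi ⟨h, h'⟩
    · exact Or.inl h
  isOpen_sUnion S hS := by
    refine ⟨?_, ?_⟩
    · rw [Set.preimage_sUnion]
      exact isOpen_biUnion fun U hU => (hS U hU).1
    · rintro ⟨U, hU, h0⟩ j
      filter_upwards [(hS U hU).2 h0 j] with k hk
      exact PP_mono (fun i hi h => hi ⟨U, hU, h⟩) hk

theorem isOpen_XX {U : Set XX} : IsOpen U ↔ IsOpen (XX.r ⁻¹' U) ∧
    (XX.r 0 ∈ U → ∀ j, ∀ᶠ k in atTop, PP j k {i | XX.d k i ∉ U}) := Iff.rfl

theorem cont_iff (f : XX → ℝ) : Continuous f ↔ Continuous (fun x => f (XX.r x)) ∧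
    CDp (fun k i => f (XX.d k i) - f (XX.r 0)) := by
  constructor
  · intro hf
    refine ⟨⟨fun V hV => (isOpen_XX.1 (hf.isOpen_preimage V hV)).1⟩, ?_⟩
    intro ε hε j
    have h1 := (isOpen_XX.1 (hf.isOpen_preimage _ (Metric.isOpen_ball (x := f (XX.r 0)) (ε := ε)))).2
      (Metric.mem_ball_self hε) j
    filter_upwards [h1] with k hk
    refine PP_mono ?_ hk
    intro i hi
    simp only [Set.mem_ofPred_eq, Set.mem_preimage, Metric.mem_ball, not_lt, Real.dist_eq] at hi ⊢
    exact hi
  · rintro ⟨h1, h2⟩
    refine ⟨fun V hV => isOpen_XX.2 ⟨hV.preimage h1, fun h0 j => ?_⟩⟩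
    obtain ⟨ε, hε, hb⟩ := Metric.isOpen_iff.1 hV _ h0
    filter_upwards [h2 ε hε j] with k hk
    refine PP_mono ?_ hk
    intro i hi
    simp only [Set.mem_ofPred_eq]
    by_contra hcon
    push Not at hcon
    apply hi
    apply hb
    rw [Metric.mem_ball, Real.dist_eq]
    exact hcon

/-- `C_p(XX)` -/
noncomputable def eX : {g : XX → ℝ // Continuous g} ≃ᵤ
    ({w : Blk // CDp w} × {g : ℝ → ℝ // Continuous g}) where
  toFun f := (⟨fun k i => f.1 (XX.d k i) - f.1 (XX.r 0), ((cont_iff _).1 f.2).2⟩,
    ⟨fun x => f.1 (XX.r x), ((cont_iff _).1 f.2).1⟩)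
  invFun p := ⟨fun x => match x with
    | XX.r t => p.2.1 t
    | XX.d k i => p.1.1 k i + p.2.1 0, (cont_iff _).2 ⟨p.2.2, by
      have := p.1.2
      simpa using this⟩⟩
  left_inv f := by
    apply Subtype.ext
    funext x
    cases x with
    | r t => rfl
    | d k i => simp
  right_inv p := by
    refine Prod.ext (Subtype.ext ?_) (Subtype.ext ?_)
    · funext k i
      simp
    · rfl
  uniformContinuous_toFun := by
    have hev : ∀ x : XX, UniformContinuous fun g : {g : XX → ℝ // Continuous g} => g.1 x :=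
      fun x => (Pi.uniformContinuous_proj _ x).comp uniformContinuous_subtype_val
    apply UniformContinuous.prodMk
    · apply UniformContinuous.subtype_mk
      exact uniformContinuous_pi.2 fun k => uniformContinuous_pi.2 fun i => (hev _).sub (hev _)
    · apply UniformContinuous.subtype_mk
      exact uniformContinuous_pi.2 fun x => hev _
  uniformContinuous_invFun := by
    apply UniformContinuous.subtype_mk
    refine uniformContinuous_pi.2 fun x => ?_
    have h1 : ∀ t, UniformContinuous fun p : ({w : Blk // CDp w} × {g : ℝ → ℝ // Continuous g}) =>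
        p.2.1 t := fun t => (Pi.uniformContinuous_proj _ t).comp
          (uniformContinuous_subtype_val.comp uniformContinuous_snd)
    cases x with
    | r t => exact h1 t
    | d k i =>
      have h2 : UniformContinuous fun p : ({w : Blk // CDp w} × {g : ℝ → ℝ // Continuous g}) =>
          p.1.1 k i := (Pi.uniformContinuous_proj _ i).comp ((Pi.uniformContinuous_proj _ k).comp
            (uniformContinuous_subtype_val.comp uniformContinuous_fst))
      exact h2.add (h1 0)

/-- the final equivalence -/
noncomputable def eFinal : {g : XX → ℝ // Continuous g} ≃ᵤ {g : ℝ → ℝ // Continuous g} :=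
  eX.trans (((UniformEquiv.refl _).prodCongr eR).trans
    ((UniformEquiv.prodAssoc _ _ _).symm.trans
      ((core.prodCongr (UniformEquiv.refl _)).trans eR.symm)))

instance : T1Space XX where
  t1 x := by
    rw [← isOpen_compl_iff, isOpen_XX]
    cases x with
    | r t =>
      refine ⟨?_, fun _ j => Eventually.of_forall fun k => ?_⟩
      · have : XX.r ⁻¹' {XX.r t}ᶜ = {t}ᶜ := by
          ext s; simp
        rw [this]
        exact isOpen_compl_singleton
      · simpa using PP_empty j k
    | d k i =>
      refine ⟨?_, fun _ j => ?_⟩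
      · have : XX.r ⁻¹' {XX.d k i}ᶜ = Set.univ := by
          ext s; simp
        rw [this]
        exact isOpen_univ
      · filter_upwards [eventually_gt_atTop k] with k' hk'
        have : {i' | XX.d k' i' ∉ ({XX.d k i}ᶜ : Set XX)} = ∅ := by
          ext i'
          simp only [Set.mem_compl_iff, Set.mem_singleton_iff, not_not, Set.mem_ofPred_eq,
            Set.mem_empty_iff_false, iff_false]
          intro h
          injection h with h1 _
          omega
        rw [this]
        exact PP_empty j k'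

theorem bump (a ρ : ℝ) (hρ : 0 < ρ) : ∃ h : ℝ → ℝ, Continuous h ∧ h a = 0 ∧
    (∀ t, 0 ≤ h t ∧ h t ≤ 1) ∧ ∀ t, t ∉ Metric.ball a ρ → h t = 1 := by
  refine ⟨fun t => min 1 (|t - a| / ρ), by fun_prop, by simp, fun t => ⟨?_, min_le_left _ _⟩, ?_⟩
  · exact le_min zero_le_one (by positivity)
  · intro t ht
    rw [Metric.mem_ball, Real.dist_eq, not_lt] at ht
    exact min_eq_left ((le_div_iff₀ hρ).2 (by linarith))

theorem sep (x : XX) (U : Set XX) (hU : IsOpen U) (hx : x ∈ U) :
    ∃ g : XX → ℝ, Continuous g ∧ g x = 0 ∧ (∀ y, 0 ≤ g y ∧ g y ≤ 1) ∧ ∀ y, y ∉ U → g y = 1 := by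
  classical
  cases x with
  | r a =>
    by_cases ha : a = 0
    · subst ha
      obtain ⟨ρ, hρ, hb⟩ := Metric.isOpen_iff.1 (isOpen_XX.1 hU).1 0 hx
      obtain ⟨h, hc, h0, hr, h1⟩ := bump 0 ρ hρ
      refine ⟨fun y => match y with
        | XX.r t => h t
        | XX.d k i => if XX.d k i ∈ U then 0 else 1, (cont_iff _).2 ⟨hc, ?_⟩, h0, ?_, ?_⟩
      · intro ε hε j
        filter_upwards [(isOpen_XX.1 hU).2 hx j] with k hk
        refine PP_mono ?_ hk
        intro i hi
        simp only [Set.mem_ofPred_eq, h0, sub_zero] at hi ⊢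
        intro hcon
        rw [if_pos hcon, abs_zero] at hi
        linarith
      · intro y
        cases y with
        | r t => exact hr t
        | d k i =>
          simp only
          split_ifs <;> norm_num
      · intro y hy
        cases y with
        | r t => exact h1 t fun ht => hy (hb ht)
        | d k i => simp only; rw [if_neg hy]
    · obtain ⟨ρ, hρ, hb⟩ := Metric.isOpen_iff.1 ((isOpen_XX.1 hU).1.inter
        (isOpen_compl_singleton (x := (0 : ℝ)))) a ⟨hx, ha⟩
      obtain ⟨h, hc, h0, hr, h1⟩ := bump a ρ hρ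
      have hz : h 0 = 1 := h1 0 fun ht => (hb ht).2 rfl
      refine ⟨fun y => match y with
        | XX.r t => h t
        | XX.d _ _ => 1, (cont_iff _).2 ⟨hc, ?_⟩, h0, ?_, ?_⟩
      · intro ε hε j
        refine Eventually.of_forall fun k => ?_
        refine PP_mono ?_ (PP_empty j k)
        intro i hi
        simp only [Set.mem_ofPred_eq, hz, sub_self, abs_zero] at hi
        exact absurd hi (not_le.2 hε)
      · intro y
        cases y with
        | r t => exact hr t
        | d k i => norm_num
      · intro y hy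
        cases y with
        | r t => exact h1 t fun ht => hy (hb ht).1
        | d k i => rfl
  | d k i =>
    refine ⟨fun y => if y = XX.d k i then 0 else 1, (cont_iff _).2 ⟨?_, ?_⟩, if_pos rfl, ?_, ?_⟩
    · have : (fun x => if XX.r x = XX.d k i then (0 : ℝ) else 1) = fun _ => 1 := by
        funext t
        rw [if_neg (by simp)]
      rw [this]
      exact continuous_const
    · intro ε hε j
      filter_upwards [eventually_gt_atTop k] with k' hk'
      refine PP_mono ?_ (PP_empty j k')
      intro i' hi'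
      have hne : XX.d k' i' ≠ XX.d k i := by
        intro h
        injection h with h1 _
        omega
      simp only [Set.mem_ofPred_eq] at hi'
      rw [if_neg hne, if_neg (by simp), sub_self, abs_zero] at hi'
      exact absurd hi' (not_le.2 hε)
    · intro y
      simp only
      split_ifs <;> norm_num
    · intro y hy
      simp only
      rw [if_neg]
      rintro rfl
      exact hy hx

instance : CompletelyRegularSpace XX := by
  rw [completelyRegularSpace_iff_isOpen]
  intro x U hU hx
  obtain ⟨g, hg, h0, hr, h1⟩ := sep x U hU hx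
  refine ⟨fun y => ⟨g y, hr y⟩, hg.subtype_mk _, Subtype.ext h0, ?_⟩
  intro y hy
  exact Subtype.ext (h1 y hy)

instance : T35Space XX where

def DD : Set XX := {x | ∃ k i, x = XX.d k i}

theorem compact_finite (K : Set XX) (hK : IsCompact K) : (K ∩ DD).Finite := by
  classical
  set g : XX → ℝ := fun x => match x with
    | XX.r _ => 0
    | XX.d k i => if h : ∃ i', XX.d k i' ∈ K then (if i = h.choose then (k : ℝ) else 0) else 0
    with hg
  have hgc : Continuous g := by
    refine (cont_iff _).2 ⟨continuous_const, ?_⟩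
    intro ε hε j
    filter_upwards [eventually_ge_atTop (j + 1)] with k hk
    by_cases h : ∃ i', XX.d k i' ∈ K
    · have hsub : {i | ε ≤ |g (XX.d k i) - g (XX.r 0)|} ⊆ {h.choose} := by
        intro i hi
        simp only [Set.mem_ofPred_eq, hg, sub_zero] at hi
        rw [dif_pos h] at hi
        by_contra hne
        have hne' : i ≠ h.choose := hne
        rw [if_neg hne', abs_zero] at hi
        linarith
      refine PP_mono hsub ?_
      unfold PP
      rw [Set.ncard_singleton]
      omega
    · refine PP_mono ?_ (PP_empty j k)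
      intro i hi
      simp only [Set.mem_ofPred_eq, hg, sub_zero] at hi
      rw [dif_neg h, abs_zero] at hi
      exact absurd hi (not_le.2 hε)
  obtain ⟨C, hC⟩ := hK.exists_bound_of_continuousOn hgc.continuousOn
  obtain ⟨N, hN⟩ := exists_nat_gt C
  have hfin : (⋃ k ∈ Set.Iio N, Set.range (XX.d k)).Finite :=
    Set.Finite.biUnion (Set.finite_Iio N) fun k _ => Set.finite_range _
  apply hfin.subset
  rintro x ⟨hx, k, i, rfl⟩
  simp only [Set.mem_iUnion]
  refine ⟨k, ?_, i, rfl⟩
  have h : ∃ i', XX.d k i' ∈ K := ⟨i, hx⟩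
  have h1 := hC _ h.choose_spec
  simp only [hg] at h1
  rw [dif_pos h, if_true, Real.norm_eq_abs, abs_of_nonneg (Nat.cast_nonneg k)] at h1
  have : (k : ℝ) < N := lt_of_le_of_lt h1 hN
  exact_mod_cast this

theorem not_komega : ¬ ∃ K : ℕ → Set XX, (∀ n, IsCompact (K n)) ∧ (⋃ n, K n) = Set.univ ∧
    ∀ F : Set XX, (∀ n, IsClosed ((Subtype.val : ↥(K n) → XX) ⁻¹' F)) → IsClosed F := by
  rintro ⟨K, hK, -, hF⟩
  have h1 : IsClosed DD := by
    apply hF
    intro n
    apply Set.Finite.isClosed
    apply Set.Finite.of_finite_image (f := Subtype.val) _ Subtype.val_injective.injOn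
    apply (compact_finite (K n) (hK n)).subset
    rintro _ ⟨y, hy, rfl⟩
    exact ⟨y.2, hy⟩
  have h2 := (isOpen_XX.1 h1.isOpen_compl).2 (by
    rintro ⟨k, i, h⟩
    exact XX.noConfusion h) 0
  obtain ⟨k, hk⟩ := h2.exists
  have h3 : {i : Fin (k + 1) | XX.d k i ∉ (DDᶜ : Set XX)} = Set.univ := by
    ext i
    simp only [Set.mem_ofPred_eq, Set.mem_univ, iff_true, Set.mem_compl_iff, not_not]
    exact ⟨k, i, rfl⟩
  rw [h3] at hk
  unfold PP at hk
  rw [Set.ncard_univ, Nat.card_eq_fintype_card, Fintype.card_fin] at hk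
  omega

theorem main : ¬ (∀ (X : Type) [TopologicalSpace X] [T35Space X],
      Nonempty (UniformEquiv {g : X → ℝ // Continuous g} {g : ℝ → ℝ // Continuous g}) →
      ∃ K : ℕ → Set X, (∀ n, IsCompact (K n)) ∧ (⋃ n, K n) = Set.univ ∧
        ∀ F : Set X, (∀ n, IsClosed ((Subtype.val : ↥(K n) → X) ⁻¹' F)) → IsClosed F) :=
  fun h => not_komega (h XX ⟨eFinal⟩)

end Pool.Agent.H8.UEq
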